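import Mathlib
import Pool.Agent.TH189.Kr21

/-!
# Hilbert's Nullstellensatz cannot be decided by structured tests

`HN/ℂ` for `k ≥ n + 1` polynomials of degree at most `d` in `n` unknowns, `d ≥ 1`: an instance is
the vector `c` of all coefficients, and it has to be decided whether there is a common zero in
`ℂ ^ n`.  We consider decision trees of any size and any depth, which test whether polynomials in
the coefficients are zero.  (A machine over `ℂ` which decides `HN/ℂ` gives such a tree for each
format: the tests are the numerators of the tested rational functions.)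

We prove that no decision tree decides solvability, whatever its size and depth, if all its tests
are *structured*, with parameters `m ≥ 1` and `w` such that `w (m ^ 2 + 2 m ^ 4) ≤ n`.  Here a
polynomial in the coefficients is structured if it is zero or a factor of a nonzero polynomial
which is in one of the following three classes.

Let `Ω` be an algebraic closure of the field of rational functions in the coefficients.  An element
of `Ω` is a *small root* if it is a root of a monic polynomial `T ^ e + a_1 T ^ (e - 1) + ⋯ + a_e`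
with `e ≤ m` whose coefficients `a_j` are polynomials of degree at most `w j`.

(1) The polynomials which are in `Ω` products of sums of small roots with complex coefficients; the
numbers of the factors and of the summands are arbitrary.  For instance all norms
`∏ (c_1 √q_1 ± c_2 √q_2 ± ⋯ ± c_r √q_r)` of sums of any number of square roots of polynomials of
degree at most `2 w`, with `m = 2`; these norms are in general irreducible of unbounded degree.

(2) The determinants `det Y` of matrices of polynomials of degree at most `w`, of any size, with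
values in a Lie algebra `𝔤` of matrices such that the simple ideals of `𝔤 / rad 𝔤` (whose number is
arbitrary) have dimension at most `m`.

(3) The determinants `det (Y_1 + ⋯ + Y_r)`, where `r` is arbitrary, of pairwise commuting matrices
of polynomials, of any size, each of which is annihilated by a monic polynomial as above.

The proof.  The systems `f_i = ∑_l y_l z_l ^ (i B) (1 + ∑_j z_l ^ ((d + 1) ^ j) x_j) ^ d` with
`s ≤ n` parameters `(y_l, z_l)` are solvable in general.  In suitable coordinates they are the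
points of the `s`-th secant variety of a rational normal curve which spans the space.  By the
theorems of `TH189` the polynomials of the three classes do not vanish on this variety for
`s = w (m ^ 2 + 2 m ^ 4)`, so a tree with structured tests cannot separate these systems from a
general system; and a general system with `k ≥ n + 1` is not solvable, by an algebraic relation
between `n + 1` polynomials in `n` unknowns.
-/

set_option autoImplicit false

namespace Pool.Agent.Results.MP_57f271_lc.AlgebraicSumsTests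

open MvPolynomial

attribute [local instance 100] LieRing.ofAssociativeRing

/-- The exponent vectors of the monomials of degree at most `d` in `n` unknowns. -/
abbrev Mono (n d : ℕ) : Type := {α : Fin n → Fin (d + 1) // ∑ j, (α j : ℕ) ≤ d}

/-- The names of the coefficients of `k` polynomials of degree at most `d` in `n` unknowns. -/
abbrev Coeff (n k d : ℕ) : Type := Fin k × Mono n d

/-- The value at `z` of the `i`-th polynomial of the system with coefficients `c`. -/
noncomputable def value {n k d : ℕ} (c : Coeff n k d → ℂ) (i : Fin k) (z : Fin n → ℂ) : ℂ :=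
  ∑ α : Mono n d, c (i, α) * ∏ j, z j ^ (α.1 j : ℕ)

/-- The system has a common zero in `ℂ ^ n`. -/
def Solvable {n k d : ℕ} (c : Coeff n k d → ℂ) : Prop :=
  ∃ z : Fin n → ℂ, ∀ i, value c i z = 0

/-- Decision trees whose tests ask whether a polynomial in the coefficients is zero. -/
inductive Tree (Q : Type) : Type
  | answer (b : Bool) : Tree Q
  | test (g : MvPolynomial Q ℂ) (ifZero ifNonzero : Tree Q) : Tree Q

open Classical in
/-- The answer of a decision tree on an instance. -/
noncomputable def Tree.run {Q : Type} : Tree Q → (Q → ℂ) → Bool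
  | .answer b, _ => b
  | .test g T₀ T₁, c => if eval c g = 0 then T₀.run c else T₁.run c

/-- All tests of the tree are on polynomials with the property `P`. -/
def Tree.Tests {Q : Type} (P : MvPolynomial Q ℂ → Prop) : Tree Q → Prop
  | .answer _ => True
  | .test g T₀ T₁ => P g ∧ T₀.Tests P ∧ T₁.Tests P

/-- An algebraic closure of the field of rational functions. -/
abbrev Om (Q : Type) : Type := AlgebraicClosure (FractionRing (MvPolynomial Q ℂ))

/-- `χ` is a monic polynomial of degree `e ≤ m` whose coefficient at `T ^ j` is a polynomial of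
degree at most `w (e - j)`. -/
def Small {Q : Type} (m w : ℕ) (χ : Polynomial (MvPolynomial Q ℂ)) : Prop :=
  χ.Monic ∧ χ.natDegree ≤ m ∧ ∀ j, (χ.coeff j).totalDegree ≤ w * (χ.natDegree - j)

/-- `u` is a root of such a polynomial. -/
def SmallRoot {Q : Type} (m w : ℕ) (u : Om Q) : Prop :=
  ∃ χ : Polynomial (MvPolynomial Q ℂ), Small m w χ ∧
    χ.eval₂ (algebraMap (MvPolynomial Q ℂ) (Om Q)) u = 0

/-- `g` is in `Ω` a product of finite sums `∑ c_i u_i` with complex numbers `c_i` and small
roots `u_i`. -/
def ProductOfSums {Q : Type} (m w : ℕ) (g : MvPolynomial Q ℂ) : Prop :=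
  ∃ A : Multiset (Om Q), (∀ φ ∈ A, φ ∈ Submodule.span ℂ {u : Om Q | SmallRoot m w u}) ∧
    algebraMap (MvPolynomial Q ℂ) (Om Q) g = A.prod

/-- `Y` is a matrix of polynomials of degree at most `w` with values in a Lie algebra `𝔤` of
complex matrices such that every minimal nonzero ideal of `𝔤 / rad 𝔤` has dimension at most `m`.
(The Lie algebra `𝔤 / rad 𝔤` is semisimple; its minimal nonzero ideals are its simple ideals.) -/
def LieValued {Q : Type} {M : ℕ} (m w : ℕ) (Y : Matrix (Fin M) (Fin M) (MvPolynomial Q ℂ)) :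
    Prop :=
  (∀ i j, (Y i j).totalDegree ≤ w) ∧
  ∃ 𝔤 : LieSubalgebra ℂ (Matrix (Fin M) (Fin M) ℂ),
    (∀ I : LieIdeal ℂ (𝔤 ⧸ LieAlgebra.radical ℂ 𝔤), IsAtom I → Module.finrank ℂ I ≤ m) ∧
    ∀ c : Q → ℂ, Y.map (eval c) ∈ 𝔤

/-- `Z` is a sum of pairwise commuting matrices of polynomials, each of which is annihilated by a
polynomial as above. -/
def CommutingSum {Q : Type} {M : ℕ} (m w : ℕ) (Z : Matrix (Fin M) (Fin M) (MvPolynomial Q ℂ)) :
    Prop :=
  ∃ (r : ℕ) (Y : Fin r → Matrix (Fin M) (Fin M) (MvPolynomial Q ℂ)),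
    (∀ i j, Y i * Y j = Y j * Y i) ∧
    (∀ i, ∃ χ : Polynomial (MvPolynomial Q ℂ), Small m w χ ∧ Polynomial.aeval (Y i) χ = 0) ∧
    Z = ∑ i, Y i

/-- `g` is a product of sums of small roots, or the determinant of a matrix (of any size) with
values in a Lie algebra with simple factors of dimension at most `m`, or the determinant of a sum of
commuting matrices (of any size) of small degree. -/
def Basic {Q : Type} (m w : ℕ) (g : MvPolynomial Q ℂ) : Prop :=
  ProductOfSums m w g ∨
  (∃ (M : ℕ) (Y : Matrix (Fin M) (Fin M) (MvPolynomial Q ℂ)), LieValued m w Y ∧ g = Y.det) ∨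
  (∃ (M : ℕ) (Z : Matrix (Fin M) (Fin M) (MvPolynomial Q ℂ)), CommutingSum m w Z ∧ g = Z.det)

/-- `g` is zero or a factor of a nonzero polynomial of one of the three classes. -/
def Structured {Q : Type} (m w : ℕ) (g : MvPolynomial Q ℂ) : Prop :=
  g = 0 ∨ ∃ h : MvPolynomial Q ℂ, h ≠ 0 ∧ Basic m w h ∧ g ∣ h

open TH189.Kr in
/-- Structured polynomials are not killed by the generator. -/
theorem structured_notMem {Q : Type} {N : ℕ} (ψ : MvPolynomial Q ℂ →ₐ[ℂ] MvPolynomial (Fin N) ℂ)
    (hinj : Function.Injective ψ) (hd : ∀ p, (ψ p).totalDegree ≤ p.totalDegree)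
    (a : Fin N → ℂ) (ha : Function.Injective a) (m w : ℕ) (hm : 1 ≤ m) (g : MvPolynomial Q ℂ)
    (hg0 : g ≠ 0) (hg : Structured m w g) :
    ψ g ∉ H530R2.genI a (w * (m ^ 2 + 2 * m ^ 4)) := by
  obtain hg | ⟨h, h0, hb, hgh⟩ := hg
  · exact absurd hg hg0
  intro hmem
  have h1 : ψ h ∈ H530R2.genI a (w * (m ^ 2 + 2 * m ^ 4)) := by
    obtain ⟨q, rfl⟩ := hgh
    rw [map_mul]
    exact Ideal.mul_mem_right _ _ hmem
  revert h1
  obtain ⟨A, hA, hAh⟩ | ⟨M, Y, ⟨hw, 𝔤, hI, hY⟩, rfl⟩ | ⟨M, Z, ⟨r, Y, hc, hχ, rfl⟩, rfl⟩ := hb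
  · refine sums_notMemψ ψ hinj hd a ha m w hm h h0 A ?_ hAh
    intro φ hφ
    refine Submodule.span_mono ?_ (hA φ hφ)
    rintro u ⟨χ, ⟨h1, h2, h3⟩, h4⟩
    exact ⟨χ, h1, h2, h3, h4⟩
  · exact lie_notMemψ ψ hinj hd a ha 𝔤 m w hm hI Y hw hY h0
  · refine commuting_notMemψ ψ hinj hd a ha m w hm Y hc (fun i => ?_) h0
    obtain ⟨χ, ⟨h1, h2, h3⟩, h4⟩ := hχ i
    exact ⟨χ, h1, h2, h3, h4⟩

/-- A tree gives a constant answer where some polynomial is nonzero. -/
theorem tree_generic {Q : Type} (J : MvPolynomial Q ℂ → Prop) (hJ1 : ¬ J 1)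
    (hJ : ∀ p q, J (p * q) → J p ∨ J q) (P : MvPolynomial Q ℂ → Prop)
    (hP : ∀ g, g ≠ 0 → P g → ¬ J g) (T : Tree Q) (hT : T.Tests P) :
    ∃ (G : MvPolynomial Q ℂ) (b : Bool), ¬ J G ∧ ∀ c, eval c G ≠ 0 → T.run c = b := by
  classical
  induction T with
  | answer b => exact ⟨1, b, hJ1, fun c _ => rfl⟩
  | test g T₀ T₁ h₀ h₁ =>
    obtain ⟨hg, hT₀, hT₁⟩ := hT
    by_cases hg0 : g = 0
    · obtain ⟨G, b, hG, hb⟩ := h₀ hT₀
      refine ⟨G, b, hG, fun c hc => ?_⟩
      show (if eval c g = 0 then T₀.run c else T₁.run c) = b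
      rw [hg0, map_zero, if_pos rfl]
      exact hb c hc
    · obtain ⟨G, b, hG, hb⟩ := h₁ hT₁
      refine ⟨g * G, b, fun h => (hJ _ _ h).elim (hP g hg0 hg) hG, fun c hc => ?_⟩
      rw [map_mul] at hc
      show (if eval c g = 0 then T₀.run c else T₁.run c) = b
      rw [if_neg (left_ne_zero_of_mul hc)]
      exact hb c (right_ne_zero_of_mul hc)

/-- **Hilbert's Nullstellensatz cannot be decided by structured tests.**  Suppose that `m ≥ 1` and
`w (m ^ 2 + 2 m ^ 4) ≤ n`.  No decision tree (of any size and depth) whose tests are structured with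
the parameters `m` and `w` decides the solvability of systems of `k ≥ n + 1` polynomials of degree
at most `d` in `n` unknowns, for any `d ≥ 1`. -/
theorem result (n k d m w : ℕ) (hk : n + 1 ≤ k) (hd : 1 ≤ d) (hm : 1 ≤ m)
    (hw : w * (m ^ 2 + 2 * m ^ 4) ≤ n) :
    ¬ ∃ T : Tree (Coeff n k d), T.Tests (Structured m w) ∧
      ∀ c : Coeff n k d → ℂ, T.run c = true ↔ Solvable c := by
  rintro ⟨T, hT, hdec⟩
  obtain ⟨a, ha⟩ : ∃ a : Fin (k * (d + 1) ^ n) → ℂ, Function.Injective a :=
    ⟨fun i => ((i : ℕ) : ℂ), fun i j h => Fin.ext (Nat.cast_injective h)⟩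
  let ψ : MvPolynomial (Coeff n k d) ℂ →ₐ[ℂ] MvPolynomial (Fin (k * (d + 1) ^ n)) ℂ :=
    TH189.Kr.psiE a (fun q : TH189.Kr.QHN n k d => (TH189.Kr.ordHN q : ℕ))
      (fun q => TH189.Kr.lamHN ℂ q.2)
  have hinj : Function.Injective ψ := TH189.Kr.psiE_injective a _ _ ha
    (Fin.val_injective.comp TH189.Kr.ordHN_injective) (fun q => (TH189.Kr.ordHN q).2)
    (fun q => TH189.Kr.lamHN_ne_zero q.2)
  have hdeg : ∀ p, (ψ p).totalDegree ≤ p.totalDegree := fun p =>
    TH189.Kr.psiE_totalDegree a _ _ p
  have hprime := H530R2.genI_prime a (w * (m ^ 2 + 2 * m ^ 4))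
  obtain ⟨G, b, hG, hb⟩ := tree_generic
    (fun p => ψ p ∈ H530R2.genI a (w * (m ^ 2 + 2 * m ^ 4)))
    (fun h => hprime.ne_top ((Ideal.eq_top_iff_one _).2 (by rwa [map_one] at h)))
    (fun p q h => hprime.mem_or_mem (by rwa [map_mul] at h)) (Structured m w)
    (fun g hg0 hg => structured_notMem ψ hinj hdeg a ha m w hm g hg0 hg) T hT
  cases b with
  | true =>
    have hG0 : G ≠ 0 := by
      rintro rfl
      exact hG (by rw [map_zero]; exact Ideal.zero_mem _)
    obtain ⟨c, hc1, hc2⟩ := TH189.Kr.unsolv_HN (n := n) (k := k) (d := d) (by omega) G hG0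
    exact hc1 ((hdec c).1 (hb c hc2))
  | false =>
    refine hG (TH189.Kr.vanish_HN hd hw a ha G fun c hc => ?_)
    by_contra h
    have h1 := (hdec c).2 hc
    rw [hb c h] at h1
    exact Bool.false_ne_true h1

end Pool.Agent.Results.MP_57f271_lc.AlgebraicSumsTests
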