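import Pool.Agent.TH658.Xr.Hn
import Pool.Agent.TH658.Xr.FixX

set_option autoImplicit false

/-!
# Equivariant programs for Hilbert's Nullstellensatz have exponential size

Let `F` be a field of characteristic not two, for instance the field of the complex numbers. The
group `Γ = (Z/2)^n` of sign changes acts on the systems of polynomial equations in `n` unknowns
over `F`: some unknowns `z_v` are replaced by `-z_v`. A program is a sequence of gates. The value
of a gate is an arbitrary function of the isomorphism class of a vector space of dimension `r`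
(over some field of characteristic not two, which may depend on the gate) with endomorphisms and
sesquilinear forms, on which the sign changes in a subgroup `H` of `Γ` act by a linear
representation (`ClassGateX`, cost `r^2 [Γ : H]`), or an arbitrary function of the traces of the
products of `r × r` matrices on which each sign change in `H` acts by some conjugation
(`TraceGateX`, cost `r^4 [Γ : H]`). The entries of the matrices are linear combinations of
arbitrary functions of the restriction of the system to a coordinate subspace of dimension at most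
`d`, and of arbitrary functions of the value of an earlier gate at the system with some signs
changed. A gate thus stands for the `[Γ : H]` gates which one gets from it by sign changes; the
cost is the number of the entries of their matrices.

For instance, take an algebraic circuit over the complex numbers (or a program with tests for
zero) with gates which compute arbitrary symmetric functions of any number of complex numbers,
and assume that it is mapped to itself by all sign changes. It is a program with one gate of
dimension one for each orbit of its gates, and its cost is the number of its gates.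

Let `k ≥ 3`, `C ≥ 4 / η^2`, `D = 10^5 C^2 k^3`, `n ≥ D` and `d ≤ n / D`.

(1) There are two distributions on systems of `n` equations `z_v^2 = 1` and `C n` equations of the
form `± z_{u 1} ⋯ z_{u k} = 1`, one on solvable systems and one on systems in which more than the
fraction `(1 - η) / 2` of the latter equations fails at each zero of the former, such that the
distributions of the value of a program of cost `S` differ by at most `S / 8^⌊n / D⌋`.
(2) So a program whose value separates the solvable systems of this form from those which are far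
from solvable in the sense of (1) has cost at least `8^⌊n / D⌋`.
-/

namespace Pool.Agent.Results.MP_57f271_lc.EquivariantPrograms

open Pool.Agent.TH658.Xr MvPolynomial

/-- At each zero of the first `n` equations more than the fraction `(1 - η) / 2` of the other
equations fails. -/
def Far {F : Type} [Field F] {n m : ℕ} (η : ℝ) (g : Sys F n m) : Prop :=
  ∀ z : Fin n → F, (∀ v, eval z (g (Sum.inl v)) = 0) →
    (1 - η) * m < 2 * (Nat.card {i : Fin m // eval z (g (Sum.inr i)) ≠ 0} : ℝ)

/-- The sum over the gates of the square (for class gates; for trace gates the fourth power) of the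
dimension, times the index of the group. -/
noncomputable def cost {n s : ℕ} (H : Fin s → AddSubgroup (Fin n → ZMod 2)) (r p : Fin s → ℕ) :
    ℕ := ∑ j, r j ^ p j * (H j).index

/-- `v` is a program which reads the restrictions of a system to the coordinate subspaces of
dimension at most `d`. -/
def IsProgramHN {F : Type} [Field F] {n m s : ℕ} {V : Type} (d : ℕ) (v : Fin s → Sys F n m → V)
    (H : Fin s → AddSubgroup (Fin n → ZMod 2)) (r p : Fin s → ℕ) : Prop :=
  IsProgramX flipSys (LocalSys F n m d) v H r p

/-- The values of the programs have nearly the same distribution on the families `f`, `g`. -/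
def Fooled {F : Type} [Field F] {n m : ℕ} (d B : ℕ) {Ω : Type} (f g : Ω → Sys F n m) : Prop :=
  ∀ (s : ℕ) (V : Type) (v : Fin s → Sys F n m → V) (H : Fin s → AddSubgroup (Fin n → ZMod 2))
    (r p : Fin s → ℕ), IsProgramHN d v H r p → ∀ (j₀ : Fin s) (T : Set V),
    |(Nat.card {ω // v j₀ (f ω) ∈ T} : ℝ) - Nat.card {ω // v j₀ (g ω) ∈ T}| * B ≤
      cost H r p * Nat.card Ω

/-- `k` is at least three, `C` is large compared to `1 / η`, and `n` is at least
`D = 10^5 C^2 k^3`. -/
def Params (η : ℝ) (C k n D : ℕ) : Prop :=
  0 < η ∧ η ≤ 1 ∧ 4 / η ^ 2 ≤ C ∧ 3 ≤ k ∧ D = 100000 * C ^ 2 * k ^ 3 ∧ D ≤ n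

/-- (1) Average case. -/
def AverageCase : Prop :=
  ∀ (F : Type) [Field F], (2 : F) ≠ 0 →
    ∀ (η : ℝ) (C k n D d : ℕ), Params η C k n D → d ≤ n / D →
    ∃ (Ω : Type) (_ : Fintype Ω) (_ : Nonempty Ω) (f g : Ω → Sys F n (C * n)),
      (∀ ω, HasZero (f ω) ∧ Far η (g ω) ∧ Simple k (f ω) ∧ Simple k (g ω)) ∧
        Fooled d (8 ^ (n / D)) f g

/-- (2) Worst case. -/
def WorstCase : Prop :=
  ∀ (F : Type) [Field F], (2 : F) ≠ 0 →
    ∀ (η : ℝ) (C k n D d : ℕ), Params η C k n D → d ≤ n / D →
    ∀ (s : ℕ) (V : Type) (v : Fin s → Sys F n (C * n) → V)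
      (H : Fin s → AddSubgroup (Fin n → ZMod 2)) (r p : Fin s → ℕ),
      IsProgramHN d v H r p → ∀ j₀ : Fin s,
      (∀ f g : Sys F n (C * n), HasZero f → Far η g → Simple k f → Simple k g →
        v j₀ f ≠ v j₀ g) →
      8 ^ (n / D) ≤ cost H r p

theorem average : AverageCase := by
  rintro F iF hF η C k n D d ⟨hη, hη1, hC, hk, rfl, hn⟩ hd
  obtain ⟨Ω, i1, i2, ww, hh, ee, h1, h2⟩ := hard_fixedX hη hη1 hC hk hn
  refine ⟨Ω, i1, i2, fun ω => hardS F (ww ω) (BX (ww ω) (hh ω)),
    fun ω => hardS F (ww ω) (BX (ww ω) (hh ω) + ee ω), fun ω => ?_, ?_⟩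
  · refine ⟨zero_hardS _ _, ?_, hardS_simple _ _, hardS_simple _ _⟩
    intro z hz
    obtain ⟨y, hy⟩ := violated hF _ _ z hz
    rw [← hy]
    have h3 : BX (ww ω) (hh ω) + ee ω + BX (ww ω) y = ee ω + BX (ww ω) (hh ω + y) := by
      rw [map_add]
      abel
    rw [h3]
    exact (h1 ω).2 _
  · intro s V v H r p hp j₀ T
    have h3 := h2 (Sys F n (C * n)) flipSys flipSys_zero flipSys_add (hardS F) hardS_equi
      (fun K iK => LocalSys F n (C * n) d K) (fun K iK hK w hw g hg =>
        low_sys hK w d _ (fun D hD => hw D (hD.trans hd)) g hg) s V v H r p hp j₀ T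
    have h4 : (((8 : ℕ) ^ (n / (100000 * C ^ 2 * k ^ 3)) : ℕ) : ℝ) =
        (8 : ℝ) ^ (n / (100000 * C ^ 2 * k ^ 3)) := by
      push_cast
      rfl
    rw [h4]
    exact h3

theorem worst : WorstCase := by
  intro F iF hF η C k n D d hp hd s V v H r p hprog j₀ hsep
  obtain ⟨Ω, i1, i2, f, g, h1, h2⟩ := average F hF η C k n D d hp hd
  have hΩ : (0 : ℝ) < Nat.card Ω := by
    rw [Nat.card_eq_fintype_card]
    exact_mod_cast Fintype.card_pos
  have h3 := h2 s V v H r p hprog j₀ (Set.range fun ω => v j₀ (f ω))
  have h4 : Nat.card {ω // v j₀ (f ω) ∈ Set.range fun ω => v j₀ (f ω)} = Nat.card Ω :=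
    Nat.card_congr (Equiv.subtypeUnivEquiv fun ω => ⟨ω, rfl⟩)
  have h5 : Nat.card {ω // v j₀ (g ω) ∈ Set.range fun ω => v j₀ (f ω)} = 0 := by
    have : IsEmpty {ω // v j₀ (g ω) ∈ Set.range fun ω => v j₀ (f ω)} := by
      refine ⟨?_⟩
      rintro ⟨ω, ω', h⟩
      exact hsep (f ω') (g ω) (h1 ω').1 (h1 ω).2.1 (h1 ω').2.2.1 (h1 ω).2.2.2 h
    exact Nat.card_of_isEmpty
  rw [h4, h5, Nat.cast_zero, sub_zero, abs_of_pos hΩ, mul_comm] at h3
  have h6 := le_of_mul_le_mul_right h3 hΩ
  exact_mod_cast h6

/-- The average case and the worst case. -/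
theorem result : AverageCase ∧ WorstCase := ⟨average, worst⟩

end Pool.Agent.Results.MP_57f271_lc.EquivariantPrograms
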