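import Pool.Agent.TH835.BSS.Main

set_option autoImplicit false

/-! # Hilbert's Nullstellensatz over the complex numbers: large cancellations are unavoidable

The systems `y_i ^ 2 = y_i` (`i < k`), `∑ 2 ^ i y_i = z` of `k + 1` equations in `k` unknowns are
solvable over `ℂ` if and only if `z` is one of the integers `0, ..., 2 ^ k - 1`. We consider
(randomized) computation trees over `ℂ` with the operations `+`, `-`, `×`, arbitrary integer
constants and tests for zero, which decide the solvability of these systems for all natural numbers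
`z`. Either they make exponentially many steps, or at almost all of the solvable systems some
addition or subtraction has an operand which is exponentially many bits longer than its result.
-/

namespace Pool.Agent.Results.MP_57f271_lc.LargeCancellations

open Polynomial Pool.Agent.H537R6 Pool.Agent.H30R2.BC Pool.Agent.TH835.BSS

/-- There is an absolute constant `K` such that the following holds for all `k`, `a`, `T` and all
`b ≥ 1`. Let `u = a (T + 2) + b + log₂ (T + 3)`.

Consider a randomized tree (the tree `t ω` with the same probability for each `ω ∈ Ω`) with the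
operations `+`, `-`, `×`, integer constants and tests for zero, which makes at most `T` steps on
each of the systems with a natural number `z`, and which decides the solvability over `ℂ` of each
of them with error probability at most `ε`. Then for a random `ω` and a random `z < 2 ^ k` the
probability that the run of `t ω` on the system with the number `z` contains an addition or a
subtraction with an operand of absolute value larger than `2 ^ a |r| + 2 ^ b`, where `r` is the
result of this operation, is at least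
`1 - 2 ε - K (T + 3) ^ 2 u ^ 2 (log₂ u + 1) / 2 ^ k`. -/
theorem result : ∃ K : ℕ, ∀ (k a b T : ℕ), 1 ≤ b → ∀ (Ω : Type) [Fintype Ω]
    (t : Ω → Pool.Agent.H30R2.BC.Tree (Fin (k + 1) × (Fin k →₀ ℕ))), (∀ ω, (t ω).DivFree) →
    ∀ ε : ℝ,
    (∀ ω, ∀ z : ℕ, steps (t ω) (coeffs (sys ℚ k z)) ≤ T) →
    (∀ z : ℕ, (1 - ε) * Nat.card Ω ≤ Nat.card {ω //
      (t ω).accepts (coeffs (sys ℂ k z)) = true ↔ Solvable (sys ℂ k z)}) →
    (1 - 2 * ε) * 2 ^ k * Nat.card Ω - (K * ((T + 3) ^ 2 * ((a * (T + 2) + b +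
      Nat.log 2 (T + 3)) ^ 2 * (Nat.log 2 (a * (T + 2) + b + Nat.log 2 (T + 3)) + 1))) : ℕ) *
      Nat.card Ω ≤
      Nat.card {q : Ω × Fin (2 ^ k) //
        Cancels a b (t q.1) (coeffs (sys ℚ k ((q.2 : ℕ) : ℚ)))} := by
  obtain ⟨K, hK⟩ := u_FI2 u_SCL u_RAD u_MAT (u_PAD u_VDM) u_LOG u_NU2
  refine ⟨4 * K * 480, ?_⟩
  intro k a b T hb Ω _ t hdf ε hT hE
  have hBd : ∀ (g : ℕ → ℤ[X]) (S : Finset ℤ), (∀ k ≤ T + 2, Valid a b g S k) → g (T + 2) ≠ 0 →
      (∀ x ∈ S, (g (T + 2)).eval x = 0) → S.card ≤ 4 * K * 480 * ((T + 3) *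
        ((a * (T + 2) + b + Nat.log 2 (T + 3)) ^ 2 *
          (Nat.log 2 (a * (T + 2) + b + Nat.log 2 (T + 3)) + 1))) := by
    intro g S hg h0 hroot
    have h1 := Pool.Agent.TH835.Tau.cancel_count
      (fun L b g S h1 h2 h3 h4 h5 => hK L b g S h1 h2 h3 h4 h5)
      (T + 2) 1 a b _ _ _ _ hb rfl rfl rfl rfl g S hg h0 hroot
    have h2 := Pool.Agent.TH835.Tau.arith2 (T + 2) 1 a b le_rfl hb _ _ _ _ _ rfl rfl rfl rfl rfl
    calc S.card ≤ _ := h1
      _ ≤ 4 * (T + 2 + 1) * (K * (480 * (1 * (a * (T + 2) + b + Nat.log 2 (1 * (T + 2 + 1))) ^ 2 *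
        (Nat.log 2 (1 * (a * (T + 2) + b + Nat.log 2 (1 * (T + 2 + 1)))) + 1)))) :=
          Nat.mul_le_mul_left _ (Nat.mul_le_mul_left _ h2)
      _ = _ := by rw [one_mul, one_mul, one_mul]; ring
  have h := cancel_main k a b T _ hBd Ω t hdf ε hT hE
  refine le_trans ?_ h
  have h1 : (4 * K * 480 * ((T + 3) *
        ((a * (T + 2) + b + Nat.log 2 (T + 3)) ^ 2 *
          (Nat.log 2 (a * (T + 2) + b + Nat.log 2 (T + 3)) + 1))) * T) ≤
      (4 * K * 480 * ((T + 3) ^ 2 * ((a * (T + 2) + b +
      Nat.log 2 (T + 3)) ^ 2 * (Nat.log 2 (a * (T + 2) + b + Nat.log 2 (T + 3)) + 1)))) := by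
    calc _ ≤ 4 * K * 480 * ((T + 3) *
        ((a * (T + 2) + b + Nat.log 2 (T + 3)) ^ 2 *
          (Nat.log 2 (a * (T + 2) + b + Nat.log 2 (T + 3)) + 1))) * (T + 3) :=
          Nat.mul_le_mul_left _ (by omega)
      _ = _ := by ring
  have h2 : ((4 * K * 480 * ((T + 3) *
        ((a * (T + 2) + b + Nat.log 2 (T + 3)) ^ 2 *
          (Nat.log 2 (a * (T + 2) + b + Nat.log 2 (T + 3)) + 1))) * T : ℕ) : ℝ) ≤
      ((4 * K * 480 * ((T + 3) ^ 2 * ((a * (T + 2) + b +
      Nat.log 2 (T + 3)) ^ 2 * (Nat.log 2 (a * (T + 2) + b + Nat.log 2 (T + 3)) + 1))) : ℕ) : ℝ) := by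
    exact_mod_cast h1
  have h3 : (0 : ℝ) ≤ Nat.card Ω := by positivity
  have h4 := mul_le_mul_of_nonneg_right h2 h3
  linarith

end Pool.Agent.Results.MP_57f271_lc.LargeCancellations
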