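import Pool.Agent.TH680.BSS.NLaw

/-!
# `NP` and `coNP` over algebraically closed fields, relative to a random oracle

`HN` over `ℂ` is complete for `NP` over `ℂ`. Its complement (the systems without a solution) is in
`NP` over `ℂ` if and only if `NP = coNP` over `ℂ`; and `P ≠ NP` over `ℂ` follows from
`NP ≠ coNP` over `ℂ`. Here machines over a field `K` (Blum-Shub-Smale machines with tests for
equality and arbitrary constants from `K`) can ask whether a vector is a 0/1 string in an oracle.

For every Boolean oracle `Q` and almost every Boolean oracle `A`, with the same `A` for **all**
algebraically closed fields `K` of all characteristics, the class `NP` over `K` relative to `Q`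
and `A` is not closed under complements. There is a problem `L` over `K`, accepted by a
nondeterministic machine with `n` guesses from `K` in `O(n)` steps, such that every nondeterministic
machine over `K` fails to accept the complement of `L` in `2 ^ (n - 1)` steps, and it fails even
for the single input `(0, ..., 0, 1)` of size `n`, for infinitely many `n`.

The machines may use arbitrary constants, so there are uncountably many machines (and `A` must be
good for all of them, and for all fields): it does not suffice to consider a single machine. Their
number of guesses is a function `ℓ j` of the size; `ℓ j` is any function from a countable list,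
arbitrary but fixed before the oracle is chosen, or a polynomial.

The proof. Let `F` be the field generated by the constants. If some `y` over `K` leads to
acceptance, consider the ring generated over `F` by the entries of `y` and by the inverses of the
nonzero elements with which the run works. It has a homomorphism over `F` to the algebraic closure
of `F` (Zariski's lemma), and this homomorphism does not change the run. So one can find `y` over
the algebraic closure of `F`. The field `F` and the constants are determined, up to
isomorphism, by the prime ideal of the polynomials with integer coefficients that vanish at the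
constants. Hence there are only countably many behaviours on 0/1 inputs. For a fixed behaviour,
a run that accepts depends on few bits of `A`, and one can apply the engine `BSS/Engine`
(certificates cannot replace rare witnesses: a second moment argument).
-/

set_option autoImplicit false

namespace Pool.Agent.Results.MP_57f271_lc.RandomOracleComplements

open MeasureTheory Pool.Agent.TH680.BSS Pool.Agent.W900.IE

universe u

/-- The distribution of the random oracle: every string is in it with probability `1 / 2`,
independently. -/
noncomputable abbrev fair : Measure (List Bool → Bool) := indep (fun _ => half)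

/-- The vector `(0, ..., 0, 1)` of size `n`. -/
def tally (K : Type u) [Field K] (n : ℕ) : List K := List.replicate (n - 1) 0 ++ [1]

/-- The nondeterministic machine `M` with `l` guesses accepts the input `x` in at most `t`
steps, relative to `Q` and `A`. -/
def Accepts {K : Type u} [Field K] (M : Machine K) (Q A : List Bool → Bool) (l t : ℕ)
    (x : List K) : Prop :=
  ∃ y : List K, y.length = l ∧ M.answer Q A t (x ++ y) = some true

theorem tally_eq (K : Type u) [Field K] (n : ℕ) : tally K n = (ins n).map (bit K) := by
  simp [tally, ins, bit]

/-- For every oracle `Q` and almost every oracle `A` the following holds for all algebraically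
closed fields `K` at once: there is a set `L` of vectors over `K` such that, relative to `Q` and
`A`,

(1) some nondeterministic machine with `n` guesses accepts exactly the inputs in `L`, and it stops
after at most `4 n + 6` steps on all vectors (input and guesses together) of size `n`;

(2) for every machine `M` over `K` and every function `ℓ j` in the list, for infinitely many `n` it
is not true that `M` with `ℓ j n` guesses accepts `(0, ..., 0, 1)` in `2 ^ (n - 1)` steps if and
only if `(0, ..., 0, 1)` is not in `L`;

(3) `L` is in `NP` over `K`, and its complement is not in `NP` over `K`. -/
theorem result (Q : List Bool → Bool) (ℓ : ℕ → ℕ → ℕ) : ∀ᵐ A ∂fair,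
    ∀ (K : Type u) [Field K] [IsAlgClosed K], ∃ L : Set (List K),
      (∃ V : Machine K, (∀ z : List K, ∃ b : Bool, V.answer Q A (4 * z.length + 6) z = some b) ∧
        ∀ x : List K, x ∈ L ↔ Accepts V Q A x.length (4 * (x.length + x.length) + 6) x) ∧
      (∀ (M : Machine K) (j : ℕ), ∃ᶠ n in Filter.atTop,
        ¬ (tally K n ∉ L ↔ Accepts M Q A (ℓ j n) (2 ^ (n - 1)) (tally K n))) ∧
      InNP Q A L ∧ ¬ InNP Q A Lᶜ := by
  classical
  filter_upwards [ae_nsep (J := ℕ ⊕ Polynomial ℕ) (Sum.elim ℓ fun p n => p.eval n) Q] with A hA
  intro K _ _
  refine ⟨lang K A, ⟨verM K, fun z => ⟨_, verM_answer Q A z⟩, fun x => ?_⟩, fun M j => ?_,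
    lang_inNP Q A, ?_⟩
  · refine exists_congr fun y => and_congr_right fun hy => ?_
    have h1 := verM_answer Q A (x ++ y)
    rw [List.length_append, hy] at h1
    rw [h1]
    simp
  · refine (hA K M (Sum.inl j)).mono fun n hn => ?_
    rw [tally_eq]
    exact hn
  · rintro ⟨M, q, p, h1, h2⟩
    obtain ⟨n₀, hn₀⟩ := exists_pow_le (p.comp (Polynomial.X + q))
    obtain ⟨n, hn, hn'⟩ := ((hA K M (Sum.inr q)).and_eventually
      (Filter.eventually_ge_atTop (n₀ + 1))).exists
    apply hn
    have hl : ((ins n).map (bit K)).length = n := by
      rw [List.length_map, length_ins (by omega)]
    have h3 := h2 ((ins n).map (bit K))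
    rw [Set.mem_compl_iff] at h3
    rw [h3, hl]
    refine exists_congr fun y => and_congr_right fun hy => ?_
    have hy' : y.length = q.eval n := hy
    have h4 := hn₀ n (by omega)
    rw [Polynomial.eval_comp, Polynomial.eval_add, Polynomial.eval_X] at h4
    obtain ⟨b, h5⟩ := h1 ((ins n).map (bit K) ++ y)
    have h6 : M.answer Q A (2 ^ (n - 1)) ((ins n).map (bit K) ++ y) = some b := by
      refine run_mono _ _ _ _ _ _ _ _ ?_ h5
      rw [List.length_append, hl, hy']
      exact h4
    rw [h5, h6]

end Pool.Agent.Results.MP_57f271_lc.RandomOracleComplements
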